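import Pool.Agent.Lead.SGr

namespace Pool.Agent.Results.MP_174f4a_gt.Q1

open Pool.Agent.Lead.Lin

universe u

theorem result : ∃ (X : Type) (_ : TopologicalSpace X), T35Space X ∧
    (@SGroup.{u} C(X, ℝ) _ (ptop X) ∧ ¬ @FrechetUrysohnSpace C(X, ℝ) (ptop X)) ∧
    (@SGroup.{u} C(X, ℝ) _ ContinuousMap.compactOpen ∧
      ¬ @FrechetUrysohnSpace C(X, ℝ) ContinuousMap.compactOpen) := by
  have e := ContinuousMap.homeoFnOfDiscrete (X := W1) (Y := ℝ)
  have h : ptop W1 = ContinuousMap.compactOpen :=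
    (ContinuousMap.homeoFnOfDiscrete (X := W1) (Y := ℝ)).isInducing.eq_induced.symm
  refine ⟨W1, inferInstance, inferInstance, ?_⟩
  rw [h, and_self]
  refine ⟨⟨inferInstance, inferInstance, fun H _ _ _ _ φ hφ => ?_⟩, fun hF => ?_⟩
  · let j : (W1 → ℝ) →+ C(W1, ℝ) :=
      ⟨⟨ContinuousMap.homeoFnOfDiscrete.symm, rfl⟩, fun _ _ => rfl⟩
    have h1 := seq_cont W1_iic (φ.comp j) fun x p hx =>
      hφ ((ContinuousMap.homeoFnOfDiscrete.symm.continuous.tendsto p).comp hx)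
    exact h1.comp (ContinuousMap.homeoFnOfDiscrete (X := W1) (Y := ℝ)).continuous
  · exact not_fu W1_unc e.symm.isInducing.frechetUrysohnSpace

end Pool.Agent.Results.MP_174f4a_gt.Q1
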